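import Mathlib

set_option autoImplicit false

/-!
# Matrix spectral factorization with arbitrary delays (MP_090951_an, S03741): definitions and tasks
-/

namespace Pool.Agent.H197R3.SF

open MeasureTheory Filter Topology Set
open scoped Pointwise Matrix ComplexConjugate

/-- the exponential `e^{-i ω t}` -/
noncomputable def ch (ω t : ℝ) : ℂ := Complex.exp (-((ω : ℂ) * (t : ℂ) * Complex.I))

/-- the weight `e^{σ|t|}` as a complex number -/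
noncomputable def wt (σ t : ℝ) : ℂ := ((Real.exp (σ * |t|) : ℝ) : ℂ)

/-- `F ω = ∫ f(t) e^{-iωt} dt + ∑ c(t) e^{-iωt}`, weight `e^{σ|t|}`, `f` supported in `E`,
`c` supported in `K` -/
structure Rep (σ : ℝ) (E K : Set ℝ) (f c : ℝ → ℂ) (F : ℝ → ℂ) : Prop where
  intg : Integrable (fun t : ℝ => f t * wt σ t)
  summ : Summable (fun t : ℝ => ‖c t‖ * Real.exp (σ * |t|))
  fE : ∀ t, t ∉ E → f t = 0
  cK : ∀ t, t ∉ K → c t = 0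
  eq : ∀ ω : ℝ, F ω = (∫ t : ℝ, f t * ch ω t) + ∑' t : ℝ, c t * ch ω t

/-- the function has such a representation -/
def W (σ : ℝ) (E K : Set ℝ) (F : ℝ → ℂ) : Prop := ∃ f c, Rep σ E K f c F

/-- matrix functions with entries in `W` -/
def WM {n : ℕ} (σ : ℝ) (E K : Set ℝ) (F : ℝ → Matrix (Fin n) (Fin n) ℂ) : Prop :=
  ∀ i j, W σ E K (fun ω => F ω i j)

/-- coercive: `c0 |x|² ≤ Re x^* A x` -/
def Coer {n : ℕ} (c0 : ℝ) (A : Matrix (Fin n) (Fin n) ℂ) : Prop :=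
  ∀ x : Fin n → ℂ, c0 * ∑ i, ‖x i‖ ^ 2 ≤ (dotProduct (star x) (A.mulVec x)).re

/-! ## Products -/

/-- TASK LL: convolution of two weighted integrable functions -/
def TaskLL : Prop :=
  ∀ (σ : ℝ) (f g : ℝ → ℂ), 0 < σ → Integrable (fun t => f t * wt σ t) →
    Integrable (fun t => g t * wt σ t) →
    Integrable (fun t => (∫ s, f s * g (t - s)) * wt σ t) ∧
    ∀ ω : ℝ, ∫ t, (∫ s, f s * g (t - s)) * ch ω t = (∫ t, f t * ch ω t) * (∫ t, g t * ch ω t)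

/-- TASK AA: convolution of two weighted summable functions -/
def TaskAA : Prop :=
  ∀ (σ : ℝ) (c d : ℝ → ℂ), 0 < σ → Summable (fun t => ‖c t‖ * Real.exp (σ * |t|)) →
    Summable (fun t => ‖d t‖ * Real.exp (σ * |t|)) →
    Summable (fun t : ℝ => ‖∑' s : ℝ, c s * d (t - s)‖ * Real.exp (σ * |t|)) ∧
    ∀ ω : ℝ, ∑' t : ℝ, (∑' s : ℝ, c s * d (t - s)) * ch ω t
      = (∑' t : ℝ, c t * ch ω t) * (∑' t : ℝ, d t * ch ω t)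

/-- TASK AL: convolution of a summable and an integrable function -/
def TaskAL : Prop :=
  ∀ (σ : ℝ) (c f : ℝ → ℂ) (K E : Set ℝ), 0 < σ → Summable (fun t => ‖c t‖ * Real.exp (σ * |t|)) →
    Integrable (fun t => f t * wt σ t) → (∀ t, t ∉ K → c t = 0) → (∀ t, t ∉ E → f t = 0) →
    ∃ k : ℝ → ℂ, Integrable (fun t => k t * wt σ t) ∧ (∀ t, t ∉ K + E → k t = 0) ∧
      ∀ ω : ℝ, ∫ t, k t * ch ω t = (∑' t : ℝ, c t * ch ω t) * (∫ t, f t * ch ω t)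

/-- products -/
def MulStmt : Prop :=
  ∀ (σ : ℝ) (E K E' K' : Set ℝ) (F G : ℝ → ℂ), 0 < σ → W σ E K F → W σ E' K' G →
    W σ ((E + E') ∪ (K + E') ∪ (K' + E)) (K + K') (fun ω => F ω * G ω)

/-- TASK MUL -/
def TaskMul : Prop := TaskLL → TaskAL → TaskAA → MulStmt

/-- closure properties of the matrix classes -/
structure MatStmt : Prop where
  mul : ∀ (n : ℕ) (σ : ℝ) (E K E' K' : Set ℝ) (F G : ℝ → Matrix (Fin n) (Fin n) ℂ), 0 < σ →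
    WM σ E K F → WM σ E' K' G →
    WM σ ((E + E') ∪ (K + E') ∪ (K' + E)) (K + K') (fun ω => F ω * G ω)
  conjT : ∀ (n : ℕ) (σ : ℝ) (E K : Set ℝ) (F : ℝ → Matrix (Fin n) (Fin n) ℂ),
    WM σ E K F → WM σ (-E) (-K) (fun ω => (F ω)ᴴ)
  add : ∀ (n : ℕ) (σ : ℝ) (E K : Set ℝ) (F G : ℝ → Matrix (Fin n) (Fin n) ℂ), 0 < σ →
    WM σ E K F → WM σ E K G → WM σ E K (fun ω => F ω + G ω)
  const : ∀ (n : ℕ) (σ : ℝ) (A : Matrix (Fin n) (Fin n) ℂ), WM σ ∅ {0} (fun _ => A)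
  mono : ∀ (n : ℕ) (σ σ' : ℝ) (E K E' K' : Set ℝ) (F : ℝ → Matrix (Fin n) (Fin n) ℂ), 0 < σ' →
    σ' ≤ σ → E ⊆ E' → K ⊆ K' → WM σ E K F → WM σ' E' K' F
  bdd : ∀ (n : ℕ) (σ : ℝ) (E K : Set ℝ) (F : ℝ → Matrix (Fin n) (Fin n) ℂ), 0 < σ →
    WM σ E K F → ∃ M : ℝ, ∀ ω i j, ‖F ω i j‖ ≤ M

/-- TASK MAT -/
def TaskMat : Prop := MulStmt → MatStmt

/-! ## Uniqueness -/

/-- TASK U1: the atomic coefficients are determined (Bohr means) -/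
def TaskU1 : Prop :=
  ∀ f c : ℝ → ℂ, Integrable f → Summable (fun t : ℝ => ‖c t‖) →
    (∀ ω : ℝ, (∫ t, f t * ch ω t) + ∑' t : ℝ, c t * ch ω t = 0) → ∀ t, c t = 0

/-- TASK U2: uniqueness for the Fourier transform of integrable functions -/
def TaskU2 : Prop :=
  ∀ f : ℝ → ℂ, Integrable f → (∀ ω : ℝ, ∫ t, f t * ch ω t = 0) → f =ᵐ[volume] 0

/-- uniqueness of representations -/
def UniqStmt : Prop :=
  ∀ (σ : ℝ) (E K E' K' : Set ℝ) (f c f' c' : ℝ → ℂ) (F : ℝ → ℂ), 0 < σ → Rep σ E K f c F →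
    Rep σ E' K' f' c' F → (∀ t, c t = c' t) ∧ f =ᵐ[volume] f'

/-- TASK UNIQ -/
def TaskUniq : Prop := TaskU1 → TaskU2 → UniqStmt

/-! ## The algebraic step -/

/-- from one solution of `F H = 1 + N` to the factorization -/
def AlgStmt : Prop :=
  ∀ (n : ℕ) (σ c0 : ℝ) (E : Set ℝ) (F H N : ℝ → Matrix (Fin n) (Fin n) ℂ), 0 < σ → 0 < c0 →
    (E = ∅ ∨ E = univ) → WM σ E univ F → (∀ ω, (F ω).IsHermitian) → (∀ ω, Coer c0 (F ω)) →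
    WM σ (E ∩ Ici 0) (Ici 0) H → WM σ (E ∩ Iic 0) (Iio 0) N → (∀ ω, F ω * H ω = 1 + N ω) →
    ∃ R : ℝ → Matrix (Fin n) (Fin n) ℂ, (∀ ω, IsUnit (R ω)) ∧ (∀ ω, F ω = (R ω)ᴴ * R ω) ∧
      WM σ (E ∩ Ici 0) (Ici 0) R ∧ WM σ (E ∩ Ici 0) (Ici 0) (fun ω => (R ω)⁻¹)

/-- TASK ALG -/
def TaskAlg : Prop := MatStmt → UniqStmt → AlgStmt

/-! ## Positivity -/

/-- TASK POS: lower bound from the determinant -/
def TaskPos : Prop :=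
  ∀ (n : ℕ) (M δ : ℝ), 0 < δ → ∃ c0 : ℝ, 0 < c0 ∧ ∀ A : Matrix (Fin n) (Fin n) ℂ, A.IsHermitian →
    (∀ x : Fin n → ℂ, 0 ≤ (dotProduct (star x) (A.mulVec x)).re) → (∀ i j, ‖A i j‖ ≤ M) →
    δ ≤ A.det.re → Coer c0 A

/-- TASK LIM: the almost periodic part as a limit of translates -/
def TaskLim : Prop :=
  ∀ (n : ℕ) (σ : ℝ) (Fa Fd : ℝ → Matrix (Fin n) (Fin n) ℂ), 0 < σ → WM σ univ ∅ Fa →
    WM σ ∅ univ Fd → ∀ ω : ℝ, ∃ T : ℕ → ℝ, ∀ i j,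
      Tendsto (fun k => Fa (ω + T k) i j + Fd (ω + T k) i j) atTop (𝓝 (Fd ω i j))

/-! ## Conversions -/

/-- TASK IN: sequences of delays to functions on `ℝ` -/
def TaskIn : Prop :=
  ∀ (σ : ℝ) (fa : ℝ → ℂ) (c : ℕ → ℂ) (τ : ℕ → ℝ) (F : ℝ → ℂ), 0 < σ →
    Integrable (fun t : ℝ => fa t * ((Real.exp (σ * |t|) : ℝ) : ℂ)) →
    Summable (fun k : ℕ => ‖c k‖ * Real.exp (σ * |τ k|)) →
    (∀ ω : ℝ, F ω = (∫ t : ℝ, fa t * Complex.exp (-((ω : ℂ) * (t : ℂ) * Complex.I))) +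
      ∑' k : ℕ, c k * Complex.exp (-((ω : ℂ) * ((τ k : ℝ) : ℂ) * Complex.I))) →
    W σ univ univ F

/-- TASK OUT: back to sequences of delays -/
def TaskOut : Prop :=
  ∀ (σ : ℝ) (F : ℝ → ℂ), 0 < σ → W σ (Ici 0) (Ici 0) F →
    ∃ (fa : ℝ → ℂ) (c : ℕ → ℂ) (τ : ℕ → ℝ), (∀ k : ℕ, 0 ≤ τ k) ∧
      Integrable (fun t : ℝ => fa t * ((Real.exp (σ * t) : ℝ) : ℂ))
        (volume.restrict (Ici (0 : ℝ))) ∧
      Summable (fun k : ℕ => ‖c k‖ * Real.exp (σ * τ k)) ∧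
      ∀ ω : ℝ, F ω =
        (∫ t in Ici (0 : ℝ), fa t * Complex.exp (-((ω : ℂ) * (t : ℂ) * Complex.I))) +
          ∑' k : ℕ, c k * Complex.exp (-((ω : ℂ) * ((τ k : ℝ) : ℂ) * Complex.I))

/-! ## The integrable part (Wiener-Hopf equation) -/

/-- TASK YOUNG -/
def TaskYoung : Prop :=
  ∀ g u : ℝ → ℂ, Integrable g → MemLp u 2 volume →
    MemLp (fun t => ∫ s, g s * u (t - s)) 2 volume ∧
    (eLpNorm (fun t => ∫ s, g s * u (t - s)) 2 volume).toReal ≤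
      (∫ s, ‖g s‖) * (eLpNorm u 2 volume).toReal ∧
    ∀ᵐ t, Integrable (fun s => g s * u (t - s))

/-- TASK POSL: positivity of the convolution operator on `L²` -/
def TaskPosL : Prop := TaskYoung →
  ∀ (n : ℕ) (c0 : ℝ) (g : ℝ → Matrix (Fin n) (Fin n) ℂ), (∀ i j, Integrable (fun t => g t i j)) →
    (∀ ω : ℝ, Coer c0 (1 + Matrix.of fun i j => ∫ t, g t i j * ch ω t)) →
    ∀ u : ℝ → Fin n → ℂ, (∀ i, MemLp (fun t => u t i) 2 volume) →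
      c0 * ∑ i, ∫ t, ‖u t i‖ ^ 2 ≤
        (∑ i, ∫ t, conj (u t i) * (u t i + ∑ j, ∫ s, g s i j * u (t - s) j)).re

/-- solvability in weighted `L²` -/
def L2Stmt : Prop :=
  ∀ (n : ℕ) (σ c0 : ℝ) (g : ℝ → Matrix (Fin n) (Fin n) ℂ), 0 < σ → 0 < c0 →
    (∀ i j, Integrable (fun t => g t i j * wt σ t)) →
    (∀ ω : ℝ, Coer c0 (1 + Matrix.of fun i j => ∫ t, g t i j * ch ω t)) →
    ∃ ε0 : ℝ, 0 < ε0 ∧ ε0 ≤ σ ∧ ∀ ε : ℝ, 0 < ε → ε ≤ ε0 → ∀ r : ℝ → Fin n → ℂ,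
      (∀ i, MemLp (fun t => r t i * ((Real.exp (ε * t) : ℝ) : ℂ)) 2 volume) →
      ∃ h : ℝ → Fin n → ℂ, (∀ i, MemLp (fun t => h t i * ((Real.exp (ε * t) : ℝ) : ℂ)) 2 volume) ∧
        (∀ t < 0, h t = 0) ∧
        ∀ᵐ t : ℝ, 0 < t → ∀ i, h t i + ∑ j, ∫ s, g s i j * h (t - s) j = r t i

/-- TASK L2 -/
def TaskL2 : Prop := TaskYoung →
  (∀ (n : ℕ) (c0 : ℝ) (g : ℝ → Matrix (Fin n) (Fin n) ℂ), (∀ i j, Integrable (fun t => g t i j)) →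
    (∀ ω : ℝ, Coer c0 (1 + Matrix.of fun i j => ∫ t, g t i j * ch ω t)) →
    ∀ u : ℝ → Fin n → ℂ, (∀ i, MemLp (fun t => u t i) 2 volume) →
      c0 * ∑ i, ∫ t, ‖u t i‖ ^ 2 ≤
        (∑ i, ∫ t, conj (u t i) * (u t i + ∑ j, ∫ s, g s i j * u (t - s) j)).re) → L2Stmt

/-- TASK SM: small kernels, weighted `L¹` -/
def TaskSm : Prop :=
  ∀ (n : ℕ) (ε : ℝ) (g : ℝ → Matrix (Fin n) (Fin n) ℂ), 0 < ε →
    (∀ i j, Integrable (fun t => g t i j * wt ε t)) →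
    (∑ i, ∑ j, ∫ s, ‖g s i j‖ * Real.exp (ε * |s|)) ≤ 1 / 2 → ∀ r : ℝ → Fin n → ℂ,
      (∀ i, Integrable (fun t => r t i * ((Real.exp (ε * t) : ℝ) : ℂ))) →
      ∃ b : ℝ → Fin n → ℂ, (∀ i, Integrable (fun t => b t i * ((Real.exp (ε * t) : ℝ) : ℂ))) ∧
        (∀ t < 0, b t = 0) ∧
        ∀ᵐ t : ℝ, 0 < t → ∀ i, b t i + ∑ j, ∫ s, g s i j * b (t - s) j = r t i

/-- the equation for symbols `1 + integrable part` -/
def ExLStmt : Prop :=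
  ∀ (n : ℕ) (σ c0 : ℝ) (Ga : ℝ → Matrix (Fin n) (Fin n) ℂ), 0 < σ → 0 < c0 → WM σ univ ∅ Ga →
    (∀ ω : ℝ, Coer c0 (1 + Ga ω)) →
    ∃ ε : ℝ, 0 < ε ∧ ε ≤ σ ∧ ∃ Ha N : ℝ → Matrix (Fin n) (Fin n) ℂ, WM ε (Ici 0) ∅ Ha ∧
      WM ε (Iic 0) ∅ N ∧ ∀ ω, (1 + Ga ω) * (1 + Ha ω) = 1 + N ω

/-- TASK EXL -/
def TaskExL : Prop := TaskLL → TaskYoung → L2Stmt → TaskSm → ExLStmt

/-! ## The almost periodic part -/

/-- characters of the discrete group `ℝ` -/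
structure Chr (χ : ℝ → ℂ) : Prop where
  zero : χ 0 = 1
  add : ∀ s t, χ (s + t) = χ s * χ t
  nrm : ∀ t, ‖χ t‖ = 1

/-- TASK LP: the local principle (Bochner-Phillips, Allan) -/
def TaskLP : Prop :=
  ∀ (A : Type) [NormedRing A] [NormedAlgebra ℂ A] [CompleteSpace A] (z : ℝ → A), z 0 = 1 →
    (∀ s t, z (s + t) = z s * z t) → (∀ t a, z t * a = a * z t) → (∀ t, ‖z t‖ ≤ 1) → ∀ x : A,
    (∀ χ : ℝ → ℂ, Chr χ → ∃ (y : A) (w : ℝ → A),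
      HasSum (fun τ => w τ * (z τ - algebraMap ℂ A (χ τ))) (y * x - 1)) → ∃ y, y * x = 1

/-- absolutely convergent operator series over the discrete group `ℝ` -/
def BPStmt : Prop :=
  ∀ (X : Type) [NormedAddCommGroup X] [NormedSpace ℂ X] [CompleteSpace X] (A : ℝ → (X →L[ℂ] X)),
    Summable (fun τ => ‖A τ‖) → (∀ χ : ℝ → ℂ, Chr χ → IsUnit (∑' τ, χ τ • A τ)) →
    ∃ δ : ℝ, 0 < δ ∧ ∀ A' : ℝ → (X →L[ℂ] X), Summable (fun τ => ‖A' τ - A τ‖) →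
      ∑' τ, ‖A' τ - A τ‖ ≤ δ → ∀ x : X, ∃ f : ℝ → X, Summable (fun g => ‖f g‖) ∧
        ∀ g, ∑' τ, A' τ (f (g - τ)) = if g = 0 then x else 0

/-- TASK BP -/
def TaskBP : Prop := TaskLP → BPStmt

/-- the Hilbert space `ℓ²(ℝ; ℂⁿ)` -/
noncomputable abbrev HS (n : ℕ) := lp (fun _ : ℝ => EuclideanSpace ℂ (Fin n)) 2

/-- the building blocks of the Toeplitz operator on the half line -/
structure Ops (n : ℕ) (A : ℝ → Matrix (Fin n) (Fin n) ℂ → (HS n →L[ℂ] HS n))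
    (Q : HS n →L[ℂ] HS n) : Prop where
  A_apply : ∀ (τ : ℝ) (C : Matrix (Fin n) (Fin n) ℂ) (u : HS n) (g : ℝ) (i : Fin n),
    (A τ C u) g i = if 0 ≤ g ∧ 0 ≤ g - τ then ∑ j, C i j * u (g - τ) j else 0
  Q_apply : ∀ (u : HS n) (g : ℝ), (Q u) g = if g < 0 then u g else 0
  A_norm : ∀ τ C, ‖A τ C‖ ≤ ∑ i, ∑ j, ‖C i j‖

/-- TASK OPS -/
def TaskOps : Prop := ∀ n : ℕ, ∃ A Q, Ops n A Q

/-- TASK BOHR: positivity of the Laurent matrix -/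
def TaskBohr : Prop :=
  ∀ (n : ℕ) (c0 : ℝ) (C : ℝ → Matrix (Fin n) (Fin n) ℂ),
    (∀ i j, Summable (fun t : ℝ => ‖C t i j‖)) →
    (∀ ω : ℝ, Coer c0 (Matrix.of fun i j => ∑' t : ℝ, C t i j * ch ω t)) →
    ∀ (S : Finset ℝ) (w : ℝ → Fin n → ℂ), c0 * ∑ s ∈ S, ∑ i, ‖w s i‖ ^ 2 ≤
      (∑ t ∈ S, ∑ s ∈ S, ∑ i, ∑ j, conj (w t i) * (C (t - s) i j * w s j)).re

/-- invertibility on `ℓ²` -/
def A2Stmt : Prop :=
  ∀ (n : ℕ) A Q, Ops n A Q → ∀ (c0 : ℝ) (C : ℝ → Matrix (Fin n) (Fin n) ℂ), 0 < c0 →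
    (∀ i j, Summable (fun t : ℝ => ‖C t i j‖)) →
    (∀ ω : ℝ, Coer c0 (Matrix.of fun i j => ∑' t : ℝ, C t i j * ch ω t)) →
    ∀ χ : ℝ → ℂ, Chr χ → IsUnit (Q + ∑' τ : ℝ, χ τ • A τ (C τ))

/-- TASK A2 -/
def TaskA2 : Prop := TaskBohr → A2Stmt

/-- the equation in the time domain -/
def APtStmt : Prop :=
  ∀ (n : ℕ) (σ c0 : ℝ) (C : ℝ → Matrix (Fin n) (Fin n) ℂ), 0 < σ → 0 < c0 →
    (∀ i j, Summable (fun t : ℝ => ‖C t i j‖ * Real.exp (σ * |t|))) →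
    (∀ ω : ℝ, Coer c0 (Matrix.of fun i j => ∑' t : ℝ, C t i j * ch ω t)) →
    ∃ ε : ℝ, 0 < ε ∧ ε ≤ σ ∧ ∀ v : Fin n → ℂ, ∃ h : ℝ → Fin n → ℂ,
      (∀ i, Summable (fun t : ℝ => ‖h t i‖ * Real.exp (ε * |t|))) ∧ (∀ t < 0, h t = 0) ∧
      ∀ g : ℝ, 0 ≤ g → ∀ i, ∑' s : ℝ, ∑ j, C (g - s) i j * h s j = if g = 0 then v i else 0

/-- TASK APT -/
def TaskAPt : Prop := TaskOps → A2Stmt → BPStmt → APtStmt

/-- the equation for almost periodic symbols -/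
def ExAPStmt : Prop :=
  ∀ (n : ℕ) (σ c0 : ℝ) (Fd : ℝ → Matrix (Fin n) (Fin n) ℂ), 0 < σ → 0 < c0 → WM σ ∅ univ Fd →
    (∀ ω : ℝ, Coer c0 (Fd ω)) →
    ∃ ε : ℝ, 0 < ε ∧ ε ≤ σ ∧ ∃ H N : ℝ → Matrix (Fin n) (Fin n) ℂ, WM ε ∅ (Ici 0) H ∧
      WM ε ∅ (Iio 0) N ∧ ∀ ω, Fd ω * H ω = 1 + N ω

/-- TASK APF -/
def TaskAPf : Prop := TaskAA → APtStmt → ExAPStmt

/-! ## The theorem -/

/-- the frozen statement S03741 -/
def Goal : Prop :=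
    ∀ (n : ℕ) (F : ℝ → Matrix (Fin n) (Fin n) ℂ),
      (∀ i j : Fin n, ∃ σ : ℝ, 0 < σ ∧ ∃ (fa : ℝ → ℂ) (c : ℕ → ℂ) (τ : ℕ → ℝ),
          MeasureTheory.Integrable (fun t : ℝ => fa t * ((Real.exp (σ * |t|) : ℝ) : ℂ)) ∧
          Summable (fun k : ℕ => ‖c k‖ * Real.exp (σ * |τ k|)) ∧
          ∀ ω : ℝ, F ω i j =
            (∫ t : ℝ, fa t * Complex.exp (-((ω : ℂ) * (t : ℂ) * Complex.I))) +
              ∑' k : ℕ, c k * Complex.exp (-((ω : ℂ) * ((τ k : ℝ) : ℂ) * Complex.I))) →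
      (∀ ω : ℝ, (F ω).IsHermitian ∧
          ∀ x : Fin n → ℂ, 0 ≤ (dotProduct (star x) ((F ω).mulVec x)).re) →
      (∃ δ : ℝ, 0 < δ ∧ ∀ ω : ℝ, δ ≤ ((F ω).det).re) →
      ∃ R : ℝ → Matrix (Fin n) (Fin n) ℂ,
        (∀ ω : ℝ, IsUnit (R ω)) ∧
        (∀ ω : ℝ, F ω = (R ω).conjTranspose * R ω) ∧
        (∀ i j : Fin n, ∃ σ : ℝ, 0 < σ ∧ ∃ (fa : ℝ → ℂ) (c : ℕ → ℂ) (τ : ℕ → ℝ),
          (∀ k : ℕ, 0 ≤ τ k) ∧
          MeasureTheory.Integrable (fun t : ℝ => fa t * ((Real.exp (σ * t) : ℝ) : ℂ))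
            (MeasureTheory.volume.restrict (Set.Ici (0 : ℝ))) ∧
          Summable (fun k : ℕ => ‖c k‖ * Real.exp (σ * τ k)) ∧
          ∀ ω : ℝ, R ω i j =
            (∫ t in Set.Ici (0 : ℝ), fa t * Complex.exp (-((ω : ℂ) * (t : ℂ) * Complex.I))) +
              ∑' k : ℕ, c k * Complex.exp (-((ω : ℂ) * ((τ k : ℝ) : ℂ) * Complex.I))) ∧
        (∀ i j : Fin n, ∃ σ : ℝ, 0 < σ ∧ ∃ (fa : ℝ → ℂ) (c : ℕ → ℂ) (τ : ℕ → ℝ),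
          (∀ k : ℕ, 0 ≤ τ k) ∧
          MeasureTheory.Integrable (fun t : ℝ => fa t * ((Real.exp (σ * t) : ℝ) : ℂ))
            (MeasureTheory.volume.restrict (Set.Ici (0 : ℝ))) ∧
          Summable (fun k : ℕ => ‖c k‖ * Real.exp (σ * τ k)) ∧
          ∀ ω : ℝ, (R ω)⁻¹ i j =
            (∫ t in Set.Ici (0 : ℝ), fa t * Complex.exp (-((ω : ℂ) * (t : ℂ) * Complex.I))) +
              ∑' k : ℕ, c k * Complex.exp (-((ω : ℂ) * ((τ k : ℝ) : ℂ) * Complex.I)))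

/-- TASK FIN -/
def TaskFin : Prop :=
  TaskIn → TaskOut → TaskPos → TaskLim → MatStmt → AlgStmt → ExLStmt → ExAPStmt → Goal

theorem assemble (hLL : TaskLL) (hAA : TaskAA) (hAL : TaskAL) (hMul : TaskMul) (hMat : TaskMat)
    (hU1 : TaskU1) (hU2 : TaskU2) (hUniq : TaskUniq) (hAlg : TaskAlg) (hPos : TaskPos)
    (hLim : TaskLim) (hIn : TaskIn) (hOut : TaskOut) (hYoung : TaskYoung) (hPosL : TaskPosL)
    (hL2 : TaskL2) (hSm : TaskSm) (hExL : TaskExL) (hLP : TaskLP) (hBP : TaskBP) (hOps : TaskOps)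
    (hBohr : TaskBohr) (hA2 : TaskA2) (hAPt : TaskAPt) (hAPf : TaskAPf) (hFin : TaskFin) :
    Goal := by
  have hmul : MulStmt := hMul hLL hAL hAA
  have hmat : MatStmt := hMat hmul
  have huniq : UniqStmt := hUniq hU1 hU2
  have halg : AlgStmt := hAlg hmat huniq
  have hl2 : L2Stmt := hL2 hYoung (hPosL hYoung)
  have hexl : ExLStmt := hExL hLL hYoung hl2 hSm
  have hbp : BPStmt := hBP hLP
  have hexap : ExAPStmt := hAPf hAA (hAPt hOps (hA2 hBohr) hbp)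
  exact hFin hIn hOut hPos hLim hmat halg hexl hexap

end Pool.Agent.H197R3.SF
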