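import Pool.Agent.H197R3.SF.Stmts

set_option autoImplicit false

namespace Pool.Agent.H197R3.SF

open MeasureTheory Filter Topology Set
open scoped Pointwise Matrix ComplexConjugate

theorem add_Ici_sub : (Ici (0 : ℝ)) + Ici 0 ⊆ Ici 0 := by
  rintro _ ⟨a, ha, b, hb, rfl⟩
  exact add_nonneg (mem_Ici.mp ha) (mem_Ici.mp hb)

theorem W_mono_of (hMat : MatStmt) {σ σ' : ℝ} {E K E' K' : Set ℝ} {F : ℝ → ℂ} (h0 : 0 < σ')
    (h1 : σ' ≤ σ) (hE : E ⊆ E') (hK : K ⊆ K') (h : W σ E K F) : W σ' E' K' F := by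
  have := hMat.mono 1 σ σ' E K E' K' (fun ω => Matrix.of fun _ _ => F ω) h0 h1 hE hK
    (fun _ _ => h)
  exact this 0 0

theorem coer_conj {n : ℕ} {c0 M : ℝ} (hc0 : 0 < c0) {F S R : Matrix (Fin n) (Fin n) ℂ}
    (hF : Coer c0 F) (hRS : R * S = 1) (hR : ∀ i j, ‖R i j‖ ≤ M) :
    Coer (c0 / ((n : ℝ) * n * M ^ 2 + 1)) (Sᴴ * F * S) := by
  intro x
  have hC : (0 : ℝ) < (n : ℝ) * n * M ^ 2 + 1 := by positivity
  set y : Fin n → ℂ := S.mulVec x with hy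
  have hx : x = R.mulVec y := by
    rw [hy, Matrix.mulVec_mulVec, hRS, Matrix.one_mulVec]
  have h1 : dotProduct (star x) ((Sᴴ * F * S).mulVec x) = dotProduct (star y) (F.mulVec y) := by
    rw [hy, ← Matrix.mulVec_mulVec, ← Matrix.mulVec_mulVec, Matrix.dotProduct_mulVec,
      Matrix.star_mulVec]
  rw [h1]
  have h2 := hF y
  have h3 : ∑ i, ‖x i‖ ^ 2 ≤ ((n : ℝ) * n * M ^ 2 + 1) * ∑ i, ‖y i‖ ^ 2 := by
    have hY : 0 ≤ ∑ i, ‖y i‖ ^ 2 := Finset.sum_nonneg fun i _ => by positivity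
    have hi : ∀ i, ‖x i‖ ^ 2 ≤ (n : ℝ) * M ^ 2 * ∑ j, ‖y j‖ ^ 2 := by
      intro i
      have e1 : ‖x i‖ ≤ ∑ j, ‖R i j‖ * ‖y j‖ := by
        conv_lhs => rw [hx]
        rw [Matrix.mulVec, dotProduct]
        refine (norm_sum_le _ _).trans (le_of_eq ?_)
        exact Finset.sum_congr rfl fun j _ => norm_mul _ _
      have e2 : (∑ j, ‖R i j‖ * ‖y j‖) ^ 2 ≤ (∑ j, ‖R i j‖ ^ 2) * ∑ j, ‖y j‖ ^ 2 :=
        Finset.sum_mul_sq_le_sq_mul_sq _ _ _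
      have e3 : ∑ j, ‖R i j‖ ^ 2 ≤ (n : ℝ) * M ^ 2 := by
        calc ∑ j, ‖R i j‖ ^ 2 ≤ ∑ _j : Fin n, M ^ 2 :=
              Finset.sum_le_sum fun j _ => by
                have h1 := hR i j
                gcongr
          _ = (n : ℝ) * M ^ 2 := by simp
      calc ‖x i‖ ^ 2 ≤ (∑ j, ‖R i j‖ * ‖y j‖) ^ 2 := by gcongr
        _ ≤ (∑ j, ‖R i j‖ ^ 2) * ∑ j, ‖y j‖ ^ 2 := e2
        _ ≤ (n : ℝ) * M ^ 2 * ∑ j, ‖y j‖ ^ 2 := by gcongr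
    calc ∑ i, ‖x i‖ ^ 2 ≤ ∑ _i : Fin n, (n : ℝ) * M ^ 2 * ∑ j, ‖y j‖ ^ 2 :=
          Finset.sum_le_sum fun i _ => hi i
      _ = ((n : ℝ) * n * M ^ 2) * ∑ i, ‖y i‖ ^ 2 := by simp; ring
      _ ≤ _ := by nlinarith
  calc c0 / ((n : ℝ) * n * M ^ 2 + 1) * ∑ i, ‖x i‖ ^ 2
      ≤ c0 / ((n : ℝ) * n * M ^ 2 + 1) * (((n : ℝ) * n * M ^ 2 + 1) * ∑ i, ‖y i‖ ^ 2) := by gcongr
    _ = c0 * ∑ i, ‖y i‖ ^ 2 := by field_simp
    _ ≤ _ := h2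

theorem taskFin : TaskFin := by
  intro hIn hOut hPos hLim hMat hAlg hExL hExAP n F hF hFpos hdet
  obtain ⟨δ, hδ, hdet⟩ := hdet
  choose σ hσ fa c τ hint hsum heq using hF
  -- a common exponent
  obtain ⟨s, hs, hsσ⟩ : ∃ s : ℝ, 0 < s ∧ ∀ i j, s ≤ σ i j := by
    refine ⟨(1 + ∑ i, ∑ j, (σ i j)⁻¹)⁻¹, ?_, ?_⟩
    · have : 0 ≤ ∑ i, ∑ j, (σ i j)⁻¹ :=
        Finset.sum_nonneg fun i _ => Finset.sum_nonneg fun j _ => (inv_pos.mpr (hσ i j)).le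
      positivity
    · intro i j
      have h1 : (σ i j)⁻¹ ≤ 1 + ∑ i, ∑ j, (σ i j)⁻¹ := by
        have e1 : (σ i j)⁻¹ ≤ ∑ j, (σ i j)⁻¹ :=
          Finset.single_le_sum (f := fun j => (σ i j)⁻¹)
            (fun j _ => (inv_pos.mpr (hσ i j)).le) (Finset.mem_univ j)
        have e2 : ∑ j, (σ i j)⁻¹ ≤ ∑ i, ∑ j, (σ i j)⁻¹ :=
          Finset.single_le_sum (f := fun i => ∑ j, (σ i j)⁻¹)
            (fun i _ => Finset.sum_nonneg fun j _ => (inv_pos.mpr (hσ i j)).le)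
            (Finset.mem_univ i)
        linarith
      exact inv_le_of_inv_le₀ (hσ i j) h1
  have hWF : WM s univ univ F := by
    intro i j
    exact W_mono_of hMat hs (hsσ i j) (Subset.refl _) (Subset.refl _)
      (hIn (σ i j) (fa i j) (c i j) (τ i j) (fun ω => F ω i j) (hσ i j) (hint i j) (hsum i j)
        (heq i j))
  -- split
  choose f c' hrep using hWF
  set Fa : ℝ → Matrix (Fin n) (Fin n) ℂ := fun ω => Matrix.of fun i j => ∫ t, f i j t * ch ω t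
    with hFa
  set Fd : ℝ → Matrix (Fin n) (Fin n) ℂ := fun ω => Matrix.of fun i j => ∑' t, c' i j t * ch ω t
    with hFd
  have hFsum : ∀ ω, F ω = Fa ω + Fd ω := by
    intro ω; ext i j
    rw [Matrix.add_apply]
    exact (hrep i j).eq ω
  have hWa : WM s univ ∅ Fa := by
    intro i j
    refine ⟨f i j, 0, (hrep i j).intg, ?_, (hrep i j).fE, fun _ _ => rfl, ?_⟩
    · simp
    · intro ω; simp [hFa]
  have hWd : WM s ∅ univ Fd := by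
    intro i j
    refine ⟨0, c' i j, ?_, (hrep i j).summ, fun _ _ => rfl, (hrep i j).cK, ?_⟩
    · simp
    · intro ω; simp [hFd]
  have hWF : WM s univ univ F := fun i j => ⟨f i j, c' i j, hrep i j⟩
  obtain ⟨M, hM⟩ := hMat.bdd n s univ univ F hs hWF
  obtain ⟨c0, hc0, hcoer⟩ := hPos n M δ hδ
  have hcF : ∀ ω, Coer c0 (F ω) := fun ω =>
    hcoer (F ω) (hFpos ω).1 (hFpos ω).2 (hM ω) (hdet ω)
  -- the almost periodic part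
  have hlimF : ∀ ω, ∃ T : ℕ → ℝ, Tendsto (fun k => F (ω + T k)) atTop (𝓝 (Fd ω)) := by
    intro ω
    obtain ⟨T, hT⟩ := hLim n s Fa Fd hs hWa hWd ω
    refine ⟨T, ?_⟩
    refine tendsto_pi_nhds.mpr fun i => tendsto_pi_nhds.mpr fun j => ?_
    have := hT i j
    refine this.congr fun k => ?_
    rw [hFsum, Matrix.add_apply]
  have hcd : ∀ ω, Coer c0 (Fd ω) := by
    intro ω x
    obtain ⟨T, hT⟩ := hlimF ω
    have hcont : Continuous fun A : Matrix (Fin n) (Fin n) ℂ =>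
        (dotProduct (star x) (A.mulVec x)).re := by
      refine Complex.continuous_re.comp ?_
      exact continuous_const.dotProduct (continuous_id.matrix_mulVec continuous_const)
    exact ge_of_tendsto' ((hcont.tendsto (Fd ω)).comp hT) fun k => hcF _ x
  have hhd : ∀ ω, (Fd ω).IsHermitian := by
    intro ω
    obtain ⟨T, hT⟩ := hlimF ω
    have h1 : Tendsto (fun k => (F (ω + T k))ᴴ) atTop (𝓝 (Fd ω)ᴴ) :=
      ((continuous_id.matrix_conjTranspose).tendsto (Fd ω)).comp hT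
    have h2 : (fun k => (F (ω + T k))ᴴ) = fun k => F (ω + T k) :=
      funext fun k => (hFpos (ω + T k)).1
    rw [h2] at h1
    exact tendsto_nhds_unique h1 hT
  obtain ⟨ε1, hε1, hε1s, H, N, hH, hN, hHN⟩ := hExAP n s c0 Fd hs hc0 hWd hcd
  have hWd1 : WM ε1 ∅ univ Fd :=
    hMat.mono n s ε1 ∅ univ ∅ univ Fd hε1 hε1s (Subset.refl _) (Subset.refl _) hWd
  obtain ⟨Rd, hRdu, hRdF, hRdW, hRdiW⟩ := hAlg n ε1 c0 ∅ Fd H N hε1 hc0 (Or.inl rfl) hWd1 hhd hcd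
    (by simpa using hH) (by simpa using hN) hHN
  rw [empty_inter] at hRdW hRdiW
  have hRR : ∀ ω, Rd ω * (Rd ω)⁻¹ = 1 := fun ω =>
    Matrix.mul_nonsing_inv _ ((Matrix.isUnit_iff_isUnit_det _).mp (hRdu ω))
  have hRR' : ∀ ω, (Rd ω)⁻¹ * Rd ω = 1 := fun ω =>
    Matrix.nonsing_inv_mul _ ((Matrix.isUnit_iff_isUnit_det _).mp (hRdu ω))
  -- the reduced symbol
  set Ga : ℝ → Matrix (Fin n) (Fin n) ℂ := fun ω => ((Rd ω)⁻¹)ᴴ * Fa ω * (Rd ω)⁻¹ with hGa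
  have hWa1 : WM ε1 univ ∅ Fa :=
    hMat.mono n s ε1 univ ∅ univ ∅ Fa hε1 hε1s (Subset.refl _) (Subset.refl _) hWa
  have hWGa : WM ε1 univ ∅ Ga := by
    have h1 := hMat.conjT n ε1 _ _ _ hRdiW
    have h2 := hMat.mul n ε1 _ _ _ _ _ _ hε1 h1 hWa1
    have h3 := hMat.mul n ε1 _ _ _ _ _ _ hε1 h2 hRdiW
    refine hMat.mono n ε1 ε1 _ _ _ _ _ hε1 le_rfl (subset_univ _) ?_ h3
    simp
  have hG : ∀ ω, 1 + Ga ω = ((Rd ω)⁻¹)ᴴ * F ω * (Rd ω)⁻¹ := by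
    intro ω
    have e1 : ((Rd ω)⁻¹)ᴴ * Fd ω * (Rd ω)⁻¹ = 1 := by
      rw [hRdF ω]
      calc ((Rd ω)⁻¹)ᴴ * ((Rd ω)ᴴ * Rd ω) * (Rd ω)⁻¹
          = (((Rd ω)⁻¹)ᴴ * (Rd ω)ᴴ) * (Rd ω * (Rd ω)⁻¹) := by simp only [Matrix.mul_assoc]
        _ = 1 := by rw [← Matrix.conjTranspose_mul, hRR, Matrix.conjTranspose_one, one_mul]
    rw [hFsum ω, Matrix.mul_add, Matrix.add_mul, e1, hGa, add_comm]
  obtain ⟨M1, hM1⟩ := hMat.bdd n ε1 _ _ Rd hε1 hRdW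
  have hc1 : 0 < c0 / ((n : ℝ) * n * M1 ^ 2 + 1) := by positivity
  have hcG : ∀ ω, Coer (c0 / ((n : ℝ) * n * M1 ^ 2 + 1)) (1 + Ga ω) := by
    intro ω
    rw [hG ω]
    exact coer_conj hc0 (hcF ω) (hRR ω) (hM1 ω)
  obtain ⟨ε2, hε2, hε21, Ha, N2, hHaW, hN2W, hHa⟩ := hExL n ε1 _ Ga hε1 hc1 hWGa hcG
  have hone : WM ε2 univ univ (fun _ : ℝ => (1 : Matrix (Fin n) (Fin n) ℂ)) :=
    hMat.mono n ε2 ε2 _ _ _ _ _ hε2 le_rfl (subset_univ _) (subset_univ _) (hMat.const n ε2 1)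
  have hone' : WM ε2 (univ ∩ Ici 0) (Ici 0) (fun _ : ℝ => (1 : Matrix (Fin n) (Fin n) ℂ)) :=
    hMat.mono n ε2 ε2 _ _ _ _ _ hε2 le_rfl (empty_subset _) (by
      intro x hx; rw [mem_singleton_iff] at hx; rw [hx]; exact mem_Ici.mpr le_rfl)
      (hMat.const n ε2 1)
  have hWG2 : WM ε2 univ univ (fun ω => 1 + Ga ω) :=
    hMat.add n ε2 univ univ _ _ hε2 hone
      (hMat.mono n ε1 ε2 _ _ _ _ _ hε2 hε21 (Subset.refl _) (empty_subset _) hWGa)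
  have hWH2 : WM ε2 (univ ∩ Ici 0) (Ici 0) (fun ω => 1 + Ha ω) :=
    hMat.add n ε2 _ _ _ _ hε2 hone'
      (hMat.mono n ε2 ε2 _ _ _ _ _ hε2 le_rfl (by simp) (empty_subset _) hHaW)
  have hWN2 : WM ε2 (univ ∩ Iic 0) (Iio 0) N2 :=
    hMat.mono n ε2 ε2 _ _ _ _ _ hε2 le_rfl (by simp) (empty_subset _) hN2W
  have hhG : ∀ ω, (1 + Ga ω).IsHermitian := by
    intro ω
    rw [hG ω]
    exact Matrix.isHermitian_conjTranspose_mul_mul _ (hFpos ω).1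
  obtain ⟨Ra, hRau, hRaF, hRaW, hRaiW⟩ := hAlg n ε2 _ univ (fun ω => 1 + Ga ω)
    (fun ω => 1 + Ha ω) N2 hε2 hc1 (Or.inr rfl) hWG2 hhG hcG hWH2 hWN2 hHa
  rw [univ_inter] at hRaW hRaiW
  have hsub : (Ici (0 : ℝ) + ∅) ∪ (Ici 0 + ∅) ∪ (Ici 0 + Ici 0) ⊆ Ici 0 := by
    simpa using add_Ici_sub
  have hsub' : ((∅ : Set ℝ) + Ici 0) ∪ (Ici 0 + Ici 0) ∪ (Ici 0 + ∅) ⊆ Ici 0 := by
    simpa using add_Ici_sub
  have hRd2 := hMat.mono n ε1 ε2 _ _ _ _ _ hε2 hε21 (Subset.refl _) (Subset.refl _) hRdW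
  have hRdi2 := hMat.mono n ε1 ε2 _ _ _ _ _ hε2 hε21 (Subset.refl _) (Subset.refl _) hRdiW
  have hRW : WM ε2 (Ici 0) (Ici 0) (fun ω => Ra ω * Rd ω) :=
    hMat.mono n ε2 ε2 _ _ _ _ _ hε2 le_rfl hsub add_Ici_sub
      (hMat.mul n ε2 _ _ _ _ _ _ hε2 hRaW hRd2)
  have hRiW : WM ε2 (Ici 0) (Ici 0) (fun ω => (Ra ω * Rd ω)⁻¹) := by
    have := hMat.mono n ε2 ε2 _ _ _ _ _ hε2 le_rfl hsub' add_Ici_sub
      (hMat.mul n ε2 _ _ _ _ _ _ hε2 hRdi2 hRaiW)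
    intro i j
    have h1 := this i j
    have h2 : (fun ω => (Ra ω * Rd ω)⁻¹ i j) = fun ω => ((Rd ω)⁻¹ * (Ra ω)⁻¹) i j := by
      funext ω; rw [Matrix.mul_inv_rev]
    rw [h2]; exact h1
  refine ⟨fun ω => Ra ω * Rd ω, fun ω => (hRau ω).mul (hRdu ω), ?_, ?_, ?_⟩
  · intro ω
    have e1 := hRaF ω
    calc F ω = ((Rd ω)⁻¹ * Rd ω)ᴴ * F ω * ((Rd ω)⁻¹ * Rd ω) := by
          rw [hRR']; simp
      _ = (Rd ω)ᴴ * (((Rd ω)⁻¹)ᴴ * F ω * (Rd ω)⁻¹) * Rd ω := by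
          rw [Matrix.conjTranspose_mul]; simp only [Matrix.mul_assoc]
      _ = (Rd ω)ᴴ * ((Ra ω)ᴴ * Ra ω) * Rd ω := by rw [← hG ω, e1]
      _ = (Ra ω * Rd ω)ᴴ * (Ra ω * Rd ω) := by
          rw [Matrix.conjTranspose_mul]; simp only [Matrix.mul_assoc]
  · intro i j
    exact ⟨ε2, hε2, hOut ε2 (fun ω => (Ra ω * Rd ω) i j) hε2 (hRW i j)⟩
  · intro i j
    exact ⟨ε2, hε2, hOut ε2 (fun ω => (Ra ω * Rd ω)⁻¹ i j) hε2 (hRiW i j)⟩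

end Pool.Agent.H197R3.SF
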